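import Pool.Agent.H79.Q.Fin

set_option autoImplicit false

/-!
# Prime values of all the quadratic polynomials of discriminant `D`, at arguments from `|D|^(1/6 + ε)` on

For all but at most `X / (log X)^A` of the integers `D`, `|D| ≤ X`, the formula of Hardy and Littlewood, with the full
constant and the relative error `(log X)^(-A)`, holds simultaneously for ALL the quadratic polynomials `a m² + b m + c` of
discriminant `D` with `a ≤ (log X)^B` and for ALL lengths `y` between `X^(1/6 + ε)` and `√X (log X)^B`, with `b` up to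
`y (log X)^B`. (A shift of the argument does not change the discriminant, so this contains all the intervals of
arguments `(u, u + y]`, `|u| ≤ y (log X)^(B - 1)`, say.)

Proof. The values of `a m² + b m`, `m ≤ y`, have nearly minimal additive energy of order two, uniformly in `a`
(divisor bound). The library theorem on families of nearly minimal energy in windows of length `N^(1/3 + ε)` (primes
against their sieve model, `helper24_UT.S_LE`, with `θ = 1 / 3`) and duality give the sums over `m ≤ y` of the primes minus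
the model for almost all `c`, for each of the reduced pairs `(a, b)`; every `D` has few reduced forms to consider, and the
other polynomials of discriminant `D` are shifts of the reduced ones. The model gives the product over the primes up to a
power of `log X`, which is close to its limit for almost all `D`, and partial summation gives the count.
-/

namespace Pool.Agent.Results.MP_a1177c_nt.AllFormsOfDiscriminant

open Finset Filter Topology

/-- the triple `(a, b, c)` is admissible -/
def Admissible (a b c : ℤ) : Prop :=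
  0 < a ∧ (∀ d : ℤ, d ∣ a → d ∣ b → d ∣ c → IsUnit d) ∧ ¬ ((2 : ℤ) ∣ a + b ∧ (2 : ℤ) ∣ c) ∧
    ¬ IsSquare (b ^ 2 - 4 * a * c)

/-- the number of `1 ≤ m ≤ y` for which `|a m² + b m + c|` is prime -/
noncomputable def primeCount (a b c : ℤ) (y : ℕ) : ℝ :=
  (#((Icc 1 y).filter (fun m : ℕ => (a * (m : ℤ) ^ 2 + b * m + c).natAbs.Prime)) : ℝ)

/-- `∑ 1 / log |a m² + b m + c|` over the `1 ≤ m ≤ y` with `|a m² + b m + c| ≥ 2` -/
noncomputable def logSum (a b c : ℤ) (y : ℕ) : ℝ :=
  ∑ m ∈ (Icc 1 y).filter (fun m : ℕ => 2 ≤ |a * (m : ℤ) ^ 2 + b * m + c|),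
    1 / Real.log |((a * (m : ℤ) ^ 2 + b * m + c : ℤ) : ℝ)|

/-- `ε = 2` if `a + b` is even and `ε = 1` if `a + b` is odd -/
noncomputable def eps (a b : ℤ) : ℝ := if (2 : ℤ) ∣ a + b then 2 else 1

/-- the product `∏_{p > 2, p ∣ gcd(a, b)} p / (p - 1)` -/
noncomputable def gcdProd (a b : ℤ) : ℝ :=
  ∏ p ∈ (Int.gcd a b).primeFactors.filter (fun p => 2 < p), (p : ℝ) / (p - 1)

/-- the partial product `∏_{2 < p ≤ z, p ∤ a} (1 - (D / p) / (p - 1))` of `C(a, b, c)`, where `D = b² - 4 a c` -/
noncomputable def partialC (a b c : ℤ) (z : ℕ) : ℝ :=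
  ∏ p ∈ (Icc 3 z).filter (fun p : ℕ => p.Prime ∧ ¬ (p : ℤ) ∣ a),
    (1 - (jacobiSym (b ^ 2 - 4 * a * c) p : ℝ) / (p - 1))

/-- The formula of Hardy and Littlewood holds for all the polynomials of discriminant `D`: for every admissible triple
`(a, b, c)` with `b² - 4 a c = D` and `a ≤ (log X)^B` the product `C(a, b, c)` converges to a number `S > 0` and, with
`M = ε S ∏_{p > 2, p ∣ gcd(a, b)} p / (p - 1)`, for ALL `y` with `X^(1/6 + 1/e) ≤ y ≤ √X (log X)^B` and
`|b| ≤ y (log X)^B` the number of the `m ≤ y` for which `|a m² + b m + c|` is prime differs from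
`M ∑_{m ≤ y} 1 / log |a m² + b m + c|` by at most the proportion `(log X)^(-A)` of the latter. -/
def HoldsFor (e A B X : ℕ) (D : ℤ) : Prop :=
  ∀ a b c : ℤ, Admissible a b c → b ^ 2 - 4 * a * c = D → (a : ℝ) ≤ Real.log X ^ B →
    ∃ S : ℝ, 0 < S ∧ Tendsto (fun z => partialC a b c z) atTop (𝓝 S) ∧
      ∀ y : ℕ, (X : ℝ) ^ (1 / 6 + 1 / e : ℝ) ≤ y → (y : ℝ) ≤ Real.sqrt X * Real.log X ^ B →
        (|b| : ℝ) ≤ y * Real.log X ^ B →
        |primeCount a b c y - eps a b * S * gcdProd a b * logSum a b c y| ≤
          eps a b * S * gcdProd a b * logSum a b c y / Real.log X ^ A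

open Classical in
/-- **Prime values of all the quadratic polynomials of almost all discriminants.** For all `A`, `B` and `e ≥ 1` and all
sufficiently large `X` all but at most `X / (log X)^A` of the integers `D`, `|D| ≤ X`, have the property that the formula
of Hardy and Littlewood with the full constant holds for ALL the polynomials `a m² + b m + c` of discriminant `D` with
`a ≤ (log X)^B` and ALL `y`, `X^(1/6 + 1/e) ≤ y ≤ √X (log X)^B`, with `|b| ≤ y (log X)^B`. -/
theorem result (e A B : ℕ) (he : 1 ≤ e) : ∃ X₀ : ℕ, ∀ X : ℕ, X₀ ≤ X →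
    (#((Icc (-(X : ℤ)) X).filter (fun D => ¬ HoldsFor e A B X D)) : ℝ) ≤ X / Real.log X ^ A := by
  obtain ⟨X₀, h⟩ := Pool.Agent.H79.Q.Fin.main e A B he
  refine ⟨X₀, fun X hX => ?_⟩
  have h1 := h X hX
  have e1 : (Icc (-(X : ℤ)) X).filter (fun D => ¬ HoldsFor e A B X D) =
      (Icc (-(X : ℤ)) X).filter (fun D => ¬ Pool.Agent.H79.Q.Fin.HoldsFor e A B X D) :=
    Finset.filter_congr fun D _ => Iff.rfl
  rw [e1]
  exact h1

end Pool.Agent.Results.MP_a1177c_nt.AllFormsOfDiscriminant
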