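import Pool.Agent.H79.W.WFin

set_option autoImplicit false

/-!
# Prime values of all the quadratic polynomials of discriminant `D` in almost all windows of length `(log X)^C`

For given `A`, `B` there is an exponent `C` such that for all but at most `X / (log X)^A` of the integers `D`, `|D| ≤ X`,
the following holds for ALL the polynomials `f(m) = a m² + b m + c` of discriminant `D` with `a ≤ (log X)^B`, for ALL
lengths `y` between `X^(1/3 + 1/e)` and `√X (log X)^B` (with `|b| ≤ y (log X)^B`) and ALL `h` with
`(log X)^C ≤ h ≤ y / (log X)^C`: for all but at most `y / (log X)^A` of the integers `u ≤ y` the number of the `m` in the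
window `(u, u + h]` for which `|f(m)|` is prime is `M h / log |f(u)|` up to the relative error `(log X)^(-A)`, with the
full constant `M = ε C(a, b, c) ∏ p / (p - 1)` of Hardy and Littlewood. So the prime values are well distributed on the
scale of the powers of `log X` while `f(m)` is of the size up to a power of `log X` times `X`, and the windows are not
restricted to the neighbourhoods of the zeros of `f`.

Proof. The mean square over the constant term and over the windows of the sum of the primes minus their sieve model at
the values `a m² + b m + c`, `u < m ≤ u + h`, is a sum of correlations of this function at the distances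
`(t' - t)(a (2 u + t + t') + b)`, which fill the interval up to `a h y` with divisor bounded multiplicity; the sum of
the squares of the correlations at the distances up to `N^(1/3 + ε)` is small by the library theorem on the
exponential sums of the primes minus their model in almost all intervals of this length (`helper24_UT.S_MKT`,
`θ = 1 / 3`, and `S_GAL`). The variance of the sieve model in the windows is computed from its pair correlations: the
singular series of a pair is expanded over the squarefree divisors of the distance; the small divisors are equally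
distributed in all pairs of windows, the large ones are rare for two arguments of one window, and they only help in
different windows. Reduction of the polynomials, the constant and the union over the reduced forms are as in
`AllFormsOfDiscriminant`.
-/

namespace Pool.Agent.Results.MP_a1177c_nt.AlmostAllShortWindows

open Finset Filter Topology

/-- the triple `(a, b, c)` is admissible -/
def Admissible (a b c : ℤ) : Prop :=
  0 < a ∧ (∀ d : ℤ, d ∣ a → d ∣ b → d ∣ c → IsUnit d) ∧ ¬ ((2 : ℤ) ∣ a + b ∧ (2 : ℤ) ∣ c) ∧
    ¬ IsSquare (b ^ 2 - 4 * a * c)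

/-- the value of the polynomial -/
def value (a b c : ℤ) (m : ℕ) : ℤ := a * (m : ℤ) ^ 2 + b * m + c

/-- the number of the `m` in the window `(u, u + h]` for which `|a m² + b m + c|` is prime -/
noncomputable def windowCount (a b c : ℤ) (u h : ℕ) : ℝ :=
  (#((Ioc u (u + h)).filter (fun m : ℕ => (value a b c m).natAbs.Prime)) : ℝ)

/-- `ε = 2` if `a + b` is even and `ε = 1` if `a + b` is odd -/
noncomputable def eps (a b : ℤ) : ℝ := if (2 : ℤ) ∣ a + b then 2 else 1

/-- the product `∏_{p > 2, p ∣ gcd(a, b)} p / (p - 1)` -/
noncomputable def gcdProd (a b : ℤ) : ℝ :=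
  ∏ p ∈ (Int.gcd a b).primeFactors.filter (fun p => 2 < p), (p : ℝ) / (p - 1)

/-- the partial product `∏_{2 < p ≤ z, p ∤ a} (1 - (D / p) / (p - 1))` of `C(a, b, c)`, where `D = b² - 4 a c` -/
noncomputable def partialC (a b c : ℤ) (z : ℕ) : ℝ :=
  ∏ p ∈ (Icc 3 z).filter (fun p : ℕ => p.Prime ∧ ¬ (p : ℤ) ∣ a),
    (1 - (jacobiSym (b ^ 2 - 4 * a * c) p : ℝ) / (p - 1))

/-- The formula holds in the window `(u, u + h]`: `|f(u)| ≥ 2`, and the number of the `m` in the window for which
`|f(m)|` is prime differs from `M h / log |f(u)|` by at most the proportion `1 / T` of the latter. -/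
def GoodWindow (a b c : ℤ) (M T : ℝ) (u h : ℕ) : Prop :=
  2 ≤ |(value a b c u : ℝ)| ∧
    |windowCount a b c u h - M * h / Real.log (|(value a b c u : ℝ)|)| ≤
      M * h / Real.log (|(value a b c u : ℝ)|) / T

open Classical in
/-- The property of `D`: for every admissible triple `(a, b, c)` with `b² - 4 a c = D` and `a ≤ (log X)^B` the product
`C(a, b, c)` converges to a number `S > 0` and, with `M = ε S ∏_{p > 2, p ∣ gcd(a, b)} p / (p - 1)`, for ALL `y` with
`X^(1/3 + 1/e) ≤ y ≤ √X (log X)^B` and `|b| ≤ y (log X)^B` and ALL `h` with `(log X)^C ≤ h` and `h (log X)^C ≤ y` the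
formula holds in the windows `(u, u + h]` for all but at most `y / (log X)^A` of the `1 ≤ u ≤ y`. -/
def HoldsFor (e A B C X : ℕ) (D : ℤ) : Prop :=
  ∀ a b c : ℤ, Admissible a b c → b ^ 2 - 4 * a * c = D → (a : ℝ) ≤ Real.log X ^ B →
    ∃ S : ℝ, 0 < S ∧ Tendsto (fun z => partialC a b c z) atTop (𝓝 S) ∧
      ∀ y h : ℕ, (X : ℝ) ^ (1 / 3 + 1 / e : ℝ) ≤ y → (y : ℝ) ≤ Real.sqrt X * Real.log X ^ B →
        (|b| : ℝ) ≤ y * Real.log X ^ B → Real.log X ^ C ≤ h → h * Real.log X ^ C ≤ y →
        (#((Icc 1 y).filter (fun u => ¬ GoodWindow a b c (eps a b * S * gcdProd a b) (Real.log X ^ A) u h)) : ℝ) ≤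
          y / Real.log X ^ A

lemma good_iff (a b c : ℤ) (M T : ℝ) (u h : ℕ) :
    GoodWindow a b c M T u h ↔ Pool.Agent.H79.W.Wone.GoodWin a b c M (1 / T) u h := by
  unfold GoodWindow Pool.Agent.H79.W.Wone.GoodWin
  rw [mul_one_div]
  exact Iff.rfl

open Classical in
/-- **Prime values in almost all windows of length a power of `log X`.** For all `A` and `B` there is a `C` such that
for every `e ≥ 1` and all sufficiently large `X` all but at most `X / (log X)^A` of the integers `D`, `|D| ≤ X`, have
the property that for ALL the polynomials of discriminant `D` with `a ≤ (log X)^B`, ALL `y`,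
`X^(1/3 + 1/e) ≤ y ≤ √X (log X)^B`, with `|b| ≤ y (log X)^B`, and ALL `h`, `(log X)^C ≤ h ≤ y / (log X)^C`, the formula
of Hardy and Littlewood holds in almost all the windows `(u, u + h]`, `u ≤ y`. -/
theorem result (A B : ℕ) : ∃ C : ℕ, ∀ e : ℕ, 1 ≤ e → ∃ X₀ : ℕ, ∀ X : ℕ, X₀ ≤ X →
    (#((Icc (-(X : ℤ)) X).filter (fun D => ¬ HoldsFor e A B C X D)) : ℝ) ≤ X / Real.log X ^ A := by
  obtain ⟨C, hC⟩ := Pool.Agent.H79.W.WFin.main A B
  refine ⟨C, fun e he => ?_⟩
  obtain ⟨X₀, h⟩ := hC e he
  refine ⟨X₀, fun X hX => ?_⟩
  have h1 := h X hX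
  have e1 : (Icc (-(X : ℤ)) X).filter (fun D => ¬ HoldsFor e A B C X D) =
      (Icc (-(X : ℤ)) X).filter (fun D => ¬ Pool.Agent.H79.W.WFin.HoldsW e A B C X D) := by
    apply Finset.filter_congr
    intro D _
    have e2 : HoldsFor e A B C X D = Pool.Agent.H79.W.WFin.HoldsW e A B C X D := by
      unfold HoldsFor Pool.Agent.H79.W.WFin.HoldsW
      simp only [good_iff]
      rfl
    rw [e2]
  rw [e1]
  exact h1

end Pool.Agent.Results.MP_a1177c_nt.AlmostAllShortWindows
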