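import Pool.Agent.H14.P3Q.Dense
import Pool.Agent.H14.VC.Rough
import Pool.Agent.H16.P5.Main

/-!
# Values of quadratic polynomials at differences of a set of integers

`f` is an integer quadratic polynomial whose discriminant is not a perfect square.

(1) Power saving: if `f h` has no prime factor up to `N ^ (1 / 500000)` then for every set `A` of at least
`N ^ (1 - 1 / 1000000)` integers from an interval of length `N` there are many pairs in `A` for which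
`f (h + (y - x))` has at most THREE prime factors (`H16.P5.quad_shift`).
(2) Sets `A` of density `α ≥ (log N) ^ (-1 + ε)`: the same, with larger prime factors, a positive
proportion up to a logarithm, and for every shift `h` such that `f h` has no small prime factor.
(3) For every admissible triple and every density there is such a shift, independent of the set.
(4) Sets with only `N ^ (1 - κ)` elements, uniformly in all `f` with coefficients at most `N ^ B`: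
at most `r` prime factors.
-/

set_option autoImplicit false

namespace Pool.Agent.Results.MP_a1177c_nt.AlmostPrimeDifferences

open Polynomial Finset

/-- the value of the quadratic polynomial at `n` -/
def quad (a b c n : ℤ) : ℤ := a * n ^ 2 + b * n + c

/-- the triple `(a, b, c)` is admissible -/
def Admissible (a b c : ℤ) : Prop :=
  0 < a ∧ Int.gcd (Int.gcd a b) c = 1 ∧ ¬ IsSquare (b ^ 2 - 4 * a * c) ∧ ¬ (Even (a + b) ∧ Even c)

/-- all prime factors of the integer `m` are larger than `y` and there are at most `r` of them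
(counted with multiplicity) -/
def AlmostPrime (y : ℝ) (r : ℕ) (m : ℤ) : Prop :=
  (∀ p : ℕ, p.Prime → (p : ℤ) ∣ m → y < p) ∧ ArithmeticFunction.cardFactors m.natAbs ≤ r

lemma good_imp (N : ℕ) (hN : 2 ≤ N) (m : ℤ) (h : Pool.Agent.H14.P3.Good3 N m.natAbs) :
    AlmostPrime ((N : ℝ) ^ (38 / 100 : ℝ)) 3 m := by
  have hN1 : (1 : ℝ) < N := by exact_mod_cast (by omega : 1 < N)
  refine ⟨?_, h.2⟩
  intro p hp hd
  refine lt_of_lt_of_le ?_ (h.1 p hp (Int.natCast_dvd.1 hd))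
  exact Real.rpow_lt_rpow_of_exponent_lt hN1 (by norm_num)

open Classical in
theorem three (a b c : ℤ) (hD : ¬ IsSquare (b ^ 2 - 4 * a * c)) :
    ∀ ε : ℝ, 0 < ε → ∃ (C : ℝ) (N₀ : ℕ), 0 < C ∧ ∀ N : ℕ, N₀ ≤ N →
    ∀ (A : Finset ℕ) (α : ℝ), A ⊆ Finset.Icc 1 N → 0 < α → Real.log N ^ (-(1 - ε)) ≤ α →
      α * N ≤ A.card → ∀ h : ℤ, |h| ≤ N →
      (∀ p : ℕ, p.Prime → (p : ℝ) ≤ C * α ^ (-(1 + ε)) → ¬ (p : ℤ) ∣ quad a b c h) →
      Real.exp (-(C * α ^ (-(1 + ε)))) * N ^ 2 / Real.log N ≤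
        (((A ×ˢ A).filter (fun x => x.1 < x.2 ∧
          AlmostPrime ((N : ℝ) ^ (38 / 100 : ℝ)) 3 (quad a b c (h + ((x.2 : ℤ) - x.1))))).card : ℝ) := by
  intro ε hε
  obtain ⟨C, N₀, hC, h0⟩ := Pool.Agent.H14.P3Q.quad3 a b c hD ε hε
  refine ⟨C, max N₀ 2, hC, fun N hN A α hA hα hαL hcard h hh hhp => ?_⟩
  have hN2 : 2 ≤ N := (le_max_right _ _).trans hN
  refine (h0 N ((le_max_left _ _).trans hN) A α hA hα hαL hcard h hh hhp).trans ?_
  apply Nat.cast_le.2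
  apply card_le_card
  intro x hx
  rw [mem_filter] at hx ⊢
  exact ⟨hx.1, hx.2.1, good_imp N hN2 _ hx.2.2⟩

/-- an admissible polynomial has no fixed prime divisor -/
lemma no_fixed (a b c : ℤ) (h : Admissible a b c) (p : ℕ) (hp : p.Prime) : ∃ n : ℤ, ¬ (p : ℤ) ∣ quad a b c n := by
  obtain ⟨_, h2, _, h4⟩ := h
  by_contra hcon
  push Not at hcon
  have e0 := hcon 0
  have e1 := hcon 1
  have e2 := hcon (-1)
  unfold quad at e0 e1 e2
  have hpZ : Prime (p : ℤ) := Nat.prime_iff_prime_int.1 hp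
  have hc : (p : ℤ) ∣ c := by
    convert e0 using 1
    ring
  have hab : (p : ℤ) ∣ a + b := by
    have h5 := dvd_sub e1 hc
    have e : a * 1 ^ 2 + b * 1 + c - c = a + b := by ring
    rwa [e] at h5
  have hab' : (p : ℤ) ∣ a - b := by
    have h5 := dvd_sub e2 hc
    have e : a * (-1) ^ 2 + b * (-1) + c - c = a - b := by ring
    rwa [e] at h5
  by_cases hp2 : p = 2
  · apply h4
    rw [hp2] at hab hc
    constructor
    · exact even_iff_two_dvd.2 (by exact_mod_cast hab)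
    · exact even_iff_two_dvd.2 (by exact_mod_cast hc)
  · have h2a : (p : ℤ) ∣ 2 * a := by
      have h5 := dvd_add hab hab'
      have e : a + b + (a - b) = 2 * a := by ring
      rwa [e] at h5
    have hn2 : ¬ (p : ℤ) ∣ 2 := by
      intro h5
      have h6 : p ∣ 2 := by exact_mod_cast h5
      exact hp2 ((Nat.prime_dvd_prime_iff_eq hp Nat.prime_two).1 h6)
    have ha : (p : ℤ) ∣ a := (hpZ.dvd_or_dvd h2a).resolve_left hn2
    have hb : (p : ℤ) ∣ b := by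
      have h5 := dvd_sub hab ha
      have e : a + b - a = b := by ring
      rwa [e] at h5
    have h5 : (p : ℤ) ∣ ((Int.gcd (Int.gcd a b) c : ℕ) : ℤ) := by
      apply Int.dvd_coe_gcd
      · exact Int.dvd_coe_gcd ha hb
      · exact hc
    rw [h2] at h5
    have h6 : p ∣ 1 := by exact_mod_cast h5
    exact hp.one_lt.ne' (Nat.dvd_one.1 h6)

open Classical in
theorem shift (a b c : ℤ) (hadm : Admissible a b c) : ∀ δ : ℝ, 0 < δ → ∃ (h : ℕ) (c₀ : ℝ) (N₀ : ℕ), 0 < c₀ ∧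
    ∀ N : ℕ, N₀ ≤ N → ∀ A : Finset ℕ, A ⊆ Finset.Icc 1 N → δ * N ≤ A.card →
      c₀ * N ^ 2 / Real.log N ≤
        (((A ×ˢ A).filter (fun x => x.1 < x.2 ∧
          AlmostPrime ((N : ℝ) ^ (38 / 100 : ℝ)) 3 (quad a b c (h + ((x.2 : ℤ) - x.1))))).card : ℝ) := by
  intro δ hδ
  obtain ⟨C, N₀, hC, h0⟩ := three a b c hadm.2.2.1 (1 / 2) (by norm_num)
  obtain ⟨w, hw⟩ : ∃ w : ℕ, w = ⌊C * δ ^ (-(1 + 1 / 2 : ℝ))⌋₊ := ⟨_, rfl⟩
  obtain ⟨h, _, hh⟩ := Pool.Agent.H14.SK.exists_shift (fun p n => (p : ℤ) ∣ quad a b c n)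
    (fun p n m hnm => Pool.Agent.H14.P3Q.qf_per a b c p n m hnm) w
    (fun p hp _ => no_fixed a b c hadm p hp)
  have t1 : Filter.Tendsto (fun N : ℕ => Real.log N ^ (-(1 - 1 / 2) : ℝ)) Filter.atTop (nhds 0) := by
    have h1 : (-(1 - 1 / 2) : ℝ) = -(1 / 2 : ℝ) := by norm_num
    rw [h1]
    exact (tendsto_rpow_neg_atTop (by norm_num)).comp
      (Real.tendsto_log_atTop.comp tendsto_natCast_atTop_atTop)
  obtain ⟨N₁, hN₁⟩ := Filter.eventually_atTop.1 (t1.eventually_le_const hδ)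
  refine ⟨h, Real.exp (-(C * δ ^ (-(1 + 1 / 2) : ℝ))), max (max N₀ N₁) h, Real.exp_pos _, ?_⟩
  intro N hN A hA hcard
  have hNN0 : N₀ ≤ N := ((le_max_left _ _).trans (le_max_left _ _)).trans hN
  have hNN1 : N₁ ≤ N := ((le_max_right _ _).trans (le_max_left _ _)).trans hN
  have hNh : h ≤ N := (le_max_right _ _).trans hN
  refine h0 N hNN0 A δ hA hδ (hN₁ N hNN1) hcard h ?_ ?_
  · rw [abs_of_nonneg (Int.natCast_nonneg h)]
    exact_mod_cast hNh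
  · intro p hp hpC
    apply hh p hp
    rw [hw]
    exact Nat.le_floor hpC

/-- the polynomial `a X ^ 2 + b X + c` -/
noncomputable def qp (a b c : ℤ) : ℤ[X] := C a * X ^ 2 + C b * X + C c

lemma qp_eval (a b c n : ℤ) : (qp a b c).eval n = quad a b c n := by
  unfold qp quad
  simp

lemma qp_coeff (a b c Y : ℤ) (h1 : |a| ≤ Y) (h2 : |b| ≤ Y) (h3 : |c| ≤ Y) (i : ℕ) : |(qp a b c).coeff i| ≤ Y := by
  have e : (qp a b c).coeff i = if i = 2 then a else if i = 1 then b else if i = 0 then c else 0 := by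
    unfold qp
    simp only [coeff_add, coeff_C_mul, coeff_X_pow, coeff_X, coeff_C]
    rcases i with _ | _ | _ | i
    · simp
    · simp
    · simp
    · simp
  rw [e]
  split_ifs
  · exact h1
  · exact h2
  · exact h3
  · rw [abs_zero]
    exact (abs_nonneg _).trans h1

open Classical in
theorem sparse : ∃ κ : ℝ, 0 < κ ∧ ∀ B : ℕ, ∃ r : ℕ, ∀ ε : ℝ, 0 < ε → ∃ N₀ : ℕ, ∀ N : ℕ, N₀ ≤ N →
    ∀ a b c h : ℤ, |a| ≤ (N : ℤ) ^ B → |b| ≤ (N : ℤ) ^ B → |c| ≤ (N : ℤ) ^ B → |h| ≤ (N : ℤ) ^ B →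
      (∀ p : ℕ, p.Prime → (p : ℝ) ≤ (N : ℝ) ^ κ → ¬ (p : ℤ) ∣ quad a b c h) →
      ∀ (u : ℕ) (A : Finset ℕ), A ⊆ Ioc u (u + N) → (N : ℝ) ^ (1 - κ) ≤ A.card →
        (A.card : ℝ) ^ 2 * (N : ℝ) ^ (-ε) ≤
          ((A ×ˢ A).filter (fun x : ℕ × ℕ => x.1 < x.2 ∧
            AlmostPrime ((N : ℝ) ^ κ) r (quad a b c (h + ((x.2 : ℤ) - x.1))) ∧
            AlmostPrime ((N : ℝ) ^ κ) r (quad a b c (h - ((x.2 : ℤ) - x.1))))).card := by
  obtain ⟨κ, hκ, hκ1, h1⟩ := Pool.Agent.H14.VC.poly_vc 1 2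
  refine ⟨κ, hκ, ?_⟩
  intro B
  obtain ⟨r, hr⟩ := h1 κ hκ le_rfl B
  refine ⟨r, ?_⟩
  intro ε hε
  obtain ⟨N₀, hN₀⟩ := hr ε hε
  refine ⟨N₀, ?_⟩
  intro N hN a b c h ha hb hc hh hgood u A hA hcard
  have h2 := hN₀ N hN (fun _ : Fin 1 => qp a b c)
    (by
      rw [Fin.sum_univ_one]
      exact natDegree_quadratic_le)
    (by
      intro i k
      exact qp_coeff a b c _ ha hb hc k)
    h hh
    (by
      intro i p hp hpN hd
      rw [qp_eval] at hd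
      exact hgood p hp hpN hd)
    u A hA hcard
  refine h2.trans ?_
  apply Nat.cast_le.2
  apply card_le_card
  intro x hx
  rw [mem_filter] at hx ⊢
  refine ⟨hx.1, hx.2.1, ?_⟩
  have h3 := hx.2.2 0
  simp only [qp_eval] at h3
  exact h3

open Classical in
theorem power (a b c : ℤ) (hD : ¬ IsSquare (b ^ 2 - 4 * a * c)) (ε : ℝ) (hε : 0 < ε) :
    ∃ N₀ : ℕ, ∀ N : ℕ, N₀ ≤ N → ∀ h : ℤ, |h| ≤ N →
      (∀ p : ℕ, p.Prime → (p : ℝ) ≤ (N : ℝ) ^ (1 / 500000 : ℝ) → ¬ (p : ℤ) ∣ quad a b c h) →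
      ∀ (u : ℕ) (A : Finset ℕ), A ⊆ Ioc u (u + N) → (N : ℝ) ^ (1 - 1 / 1000000 : ℝ) ≤ A.card →
        (A.card : ℝ) ^ 2 * (N : ℝ) ^ (-ε) ≤
          (((A ×ˢ A).filter (fun x => x.1 ≠ x.2 ∧
            AlmostPrime ((N : ℝ) ^ (1 / 10 : ℝ)) 3 (quad a b c (h + ((x.2 : ℤ) - x.1))))).card : ℝ) := by
  obtain ⟨N₀, hN₀⟩ := Pool.Agent.H16.P5.quad_shift a b c hD ε hε
  refine ⟨N₀, fun N hN h hh hp u A hA hcard => ?_⟩
  refine (hN₀ N hN h hh hp u A hA hcard).trans ?_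
  apply Nat.cast_le.2
  apply card_le_card
  intro x hx
  rw [mem_filter] at hx ⊢
  exact hx

open Classical in
/-- **Values of quadratic polynomials at the differences of a set.** -/
theorem result :
    -- (1) every discriminant that is not a perfect square, power saving: at most three prime factors
    (∀ a b c : ℤ, ¬ IsSquare (b ^ 2 - 4 * a * c) →
      ∀ ε : ℝ, 0 < ε → ∃ N₀ : ℕ, ∀ N : ℕ, N₀ ≤ N → ∀ h : ℤ, |h| ≤ N →
        (∀ p : ℕ, p.Prime → (p : ℝ) ≤ (N : ℝ) ^ (1 / 500000 : ℝ) → ¬ (p : ℤ) ∣ quad a b c h) →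
        ∀ (u : ℕ) (A : Finset ℕ), A ⊆ Ioc u (u + N) → (N : ℝ) ^ (1 - 1 / 1000000 : ℝ) ≤ A.card →
          (A.card : ℝ) ^ 2 * (N : ℝ) ^ (-ε) ≤
            (((A ×ˢ A).filter (fun x => x.1 ≠ x.2 ∧
              AlmostPrime ((N : ℝ) ^ (1 / 10 : ℝ)) 3
                (quad a b c (h + ((x.2 : ℤ) - x.1))))).card : ℝ)) ∧
    -- (2) sets of density at least `(log N) ^ (-1 + ε)`: at most three prime factors
    (∀ a b c : ℤ, ¬ IsSquare (b ^ 2 - 4 * a * c) →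
      ∀ ε : ℝ, 0 < ε → ∃ (C : ℝ) (N₀ : ℕ), 0 < C ∧ ∀ N : ℕ, N₀ ≤ N →
      ∀ (A : Finset ℕ) (α : ℝ), A ⊆ Finset.Icc 1 N → 0 < α → Real.log N ^ (-(1 - ε)) ≤ α →
        α * N ≤ A.card → ∀ h : ℤ, |h| ≤ N →
        (∀ p : ℕ, p.Prime → (p : ℝ) ≤ C * α ^ (-(1 + ε)) → ¬ (p : ℤ) ∣ quad a b c h) →
        Real.exp (-(C * α ^ (-(1 + ε)))) * N ^ 2 / Real.log N ≤
          (((A ×ˢ A).filter (fun x => x.1 < x.2 ∧
            AlmostPrime ((N : ℝ) ^ (38 / 100 : ℝ)) 3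
              (quad a b c (h + ((x.2 : ℤ) - x.1))))).card : ℝ)) ∧
    -- (3) for admissible triples there is a shift that depends on the density only
    (∀ a b c : ℤ, Admissible a b c → ∀ δ : ℝ, 0 < δ → ∃ (h : ℕ) (c₀ : ℝ) (N₀ : ℕ), 0 < c₀ ∧
      ∀ N : ℕ, N₀ ≤ N → ∀ A : Finset ℕ, A ⊆ Finset.Icc 1 N → δ * N ≤ A.card →
        c₀ * N ^ 2 / Real.log N ≤
          (((A ×ˢ A).filter (fun x => x.1 < x.2 ∧
            AlmostPrime ((N : ℝ) ^ (38 / 100 : ℝ)) 3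
              (quad a b c (h + ((x.2 : ℤ) - x.1))))).card : ℝ)) ∧
    -- (4) power saving, uniformly in the polynomial
    (∃ κ : ℝ, 0 < κ ∧ ∀ B : ℕ, ∃ r : ℕ, ∀ ε : ℝ, 0 < ε → ∃ N₀ : ℕ, ∀ N : ℕ, N₀ ≤ N →
      ∀ a b c h : ℤ, |a| ≤ (N : ℤ) ^ B → |b| ≤ (N : ℤ) ^ B → |c| ≤ (N : ℤ) ^ B → |h| ≤ (N : ℤ) ^ B →
        (∀ p : ℕ, p.Prime → (p : ℝ) ≤ (N : ℝ) ^ κ → ¬ (p : ℤ) ∣ quad a b c h) →
        ∀ (u : ℕ) (A : Finset ℕ), A ⊆ Ioc u (u + N) → (N : ℝ) ^ (1 - κ) ≤ A.card →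
          (A.card : ℝ) ^ 2 * (N : ℝ) ^ (-ε) ≤
            ((A ×ˢ A).filter (fun x : ℕ × ℕ => x.1 < x.2 ∧
              AlmostPrime ((N : ℝ) ^ κ) r (quad a b c (h + ((x.2 : ℤ) - x.1))) ∧
              AlmostPrime ((N : ℝ) ^ κ) r (quad a b c (h - ((x.2 : ℤ) - x.1))))).card) :=
  ⟨power, three, shift, sparse⟩

end Pool.Agent.Results.MP_a1177c_nt.AlmostPrimeDifferences
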