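import Pool.Agent.H40.QU.Fin

/-!
# Every admissible quadratic polynomial: its prime values are irregular in short intervals or in
progressions with tiny smooth moduli

Let `f(m) = a m² + b m + c` be ANY polynomial of the problem. The formula of the problem for `f` and for the
polynomials `f(q X + r)` (whose coefficients are `a q²`, `(2 a r + b) q`, `f(r)`) predicts that the primes `f(m)`,
`X < m ≤ 2 X`, are shared equally by the `r(q)` classes `r` modulo `q` with `f(r)` prime to `q`, and that short
intervals contain their share. We prove that these two statements exclude each other, for every admissible `f`, for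
every large `X` and whatever the total number is: for `q` one may take a tiny smooth squarefree number
`q ≤ exp ((log X) ^ ε)`, with prime factors between two small powers of `log X`, and the short intervals have any
length up to `(log X) ^ B`.

For `n² + 1` (and for prime tuples) this is a theorem of the starting files (`K4H14.MT`); here the general theorem
`K4H14.MT.main` is applied to the translate `f(n + |b| + |c| + 2)`. New are the local factors of `f` in windows of
primes (the roots of `f` are compared with those of `y² - D`, and Mertens' theorem for `y² - D` gives the asymptotic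
value of the products), and the transfer from the translate to `f`, for arbitrary main terms.
-/

set_option autoImplicit false

namespace Pool.Agent.Results.MP_a1177c_nt.UncertaintyPrinciple

open Finset Filter

/-- the value `a m² + b m + c` -/
def f (a b c : ℤ) (m : ℕ) : ℤ := a * (m : ℤ) ^ 2 + b * m + c

/-- the admissible triples of the problem -/
def Admissible (a b c : ℤ) : Prop :=
  0 < a ∧ (∀ d : ℤ, d ∣ a → d ∣ b → d ∣ c → IsUnit d) ∧ ¬ IsSquare (b ^ 2 - 4 * a * c) ∧
    ¬ (Even (a + b) ∧ Even c)

/-- the number of the `m` with `X < m ≤ Y`, `m ≡ r (mod q)`, for which `f(m)` is a prime -/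
def primeCount (a b c : ℤ) (X Y q r : ℕ) : ℕ :=
  ((Ioc X Y).filter (fun m : ℕ => m ≡ r [MOD q] ∧ (f a b c m).toNat.Prime)).card

/-- `r(q)`: the number of the classes `r` modulo `q` for which `f(r)` is prime to `q` -/
def classes (a b c : ℤ) (q : ℕ) : ℕ := ((range q).filter (fun r : ℕ => Int.gcd (f a b c r) q = 1)).card

/-- the constant of the theorem: `1 / (8 (8 N) ^ N)` with `N = ⌈12 B / ε⌉` -/
noncomputable def delta (B : ℕ) (ε : ℝ) : ℝ := 1 / (8 * (8 * (⌈12 * B / ε⌉₊ : ℕ)) ^ ⌈12 * B / ε⌉₊)

/-- `q` is squarefree, all its prime factors are between `(log X) ^ (ε / 8)` and `(log X) ^ ε`, and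
`q ≤ exp ((log X) ^ ε)` -/
def SmallModulus (ε : ℝ) (X q : ℕ) : Prop :=
  Squarefree q ∧ (∀ p : ℕ, p.Prime → p ∣ q → Real.log X ^ (ε / 8) ≤ p ∧ (p : ℝ) < Real.log X ^ ε) ∧
    (q : ℝ) ≤ Real.exp (Real.log X ^ ε)

/-- `f(r)` is prime to `q`, and the number of the primes `f(m)`, `X < m ≤ 2 X`, `m ≡ r (mod q)`, differs from the
share `G / r(q)` by at least `δ` times that share -/
def ClassDeviates (a b c : ℤ) (δ G : ℝ) (X q r : ℕ) : Prop :=
  Int.gcd (f a b c r) q = 1 ∧
    δ * (G / classes a b c q) ≤ |(primeCount a b c X (2 * X) q r : ℝ) - G / classes a b c q|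

/-- the number of the primes `f(m)`, `y < m ≤ y + S`, differs from the share `S G / X` by at least `δ` times that
share -/
def IntervalDeviates (a b c : ℤ) (δ G : ℝ) (X S y : ℕ) : Prop :=
  δ * (S * (G / X)) ≤ |(primeCount a b c y (y + S) 1 0 : ℝ) - S * (G / X)|

open Classical in
/-- **For every admissible triple `(a, b, c)` the primes `a m² + b m + c` are irregular in short intervals or in
progressions with tiny smooth moduli.** Let `B ≥ 1`, `0 < ε ≤ 1`, `N = ⌈12 B / ε⌉` and `δ = 1 / (8 (8 N) ^ N)`. For
all large `X` and every real number `G` at least one of the following holds.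

(i) There are a squarefree `q ≤ exp ((log X) ^ ε)`, all of whose prime factors are between `(log X) ^ (ε / 8)` and
`(log X) ^ ε`, and an `0 ≤ r ≤ 2 (log X) ^ B` with `f(r)` prime to `q`, such that the number of the primes `f(m)`
with `X < m ≤ 2 X`, `m ≡ r (mod q)`, differs from its share `G / r(q)` by at least `δ G / r(q)`.

(ii) For every length `S` with `1 ≤ S ≤ (log X) ^ B` there are at least `X exp (-(log X) ^ ε)` integers `y` in
`(X, 2 X]` such that the number of the primes `f(m)` with `y < m ≤ y + S` differs from its share `S G / X` by at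
least `δ S G / X`. -/
theorem result (a b c : ℤ) (h : Admissible a b c) (B : ℕ) (hB : 1 ≤ B) (ε : ℝ) (hε : 0 < ε) (hε1 : ε ≤ 1) :
    0 < delta B ε ∧ ∃ X₀ : ℕ, ∀ X : ℕ, X₀ ≤ X → ∀ G : ℝ,
      (∃ q r : ℕ, SmallModulus ε X q ∧ (r : ℝ) ≤ 2 * Real.log X ^ B ∧
        ClassDeviates a b c (delta B ε) G X q r) ∨
      ∀ S : ℕ, 1 ≤ S → (S : ℝ) ≤ Real.log X ^ B →
        X * Real.exp (-(Real.log X ^ ε)) ≤
          (((Ioc X (2 * X)).filter (fun y : ℕ => IntervalDeviates a b c (delta B ε) G X S y)).card : ℝ) := by
  have hdel : delta B ε = Pool.Agent.H40.QU.del B ε := by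
    unfold delta Pool.Agent.H40.QU.del Pool.Agent.K4H14.MT.dl
    have e : (6 : ℝ) * B / (ε / 2) = 12 * B / ε := by
      field_simp
      ring
    rw [e]
    ring
  refine ⟨hdel ▸ Pool.Agent.H40.QU.del_pos B hB ε hε, ?_⟩
  obtain ⟨X₀, hX₀⟩ := eventually_atTop.1
    (Pool.Agent.H40.QU.final a b c h.1 h.2.2.1 B hB ε hε hε1)
  refine ⟨X₀, fun X hX G => ?_⟩
  rcases hX₀ X hX G with ⟨q, h1, h2, h3, r, h4, h5, h6⟩ | h1
  · left
    refine ⟨q, r, ⟨h1, h2, h3⟩, h4, h5, ?_⟩
    rw [hdel]
    exact h6
  · right
    intro S hS1 hSB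
    rw [hdel]
    refine (h1 S hS1 hSB).trans (le_of_eq ?_)
    congr 2

end Pool.Agent.Results.MP_a1177c_nt.UncertaintyPrinciple
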